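import Mathlib

/-!
# Periods of `a + b x` in `F_p[x]/(x^s - 1)`: the definitions
-/

set_option autoImplicit false

namespace Pool.Agent.H474_CA

open Polynomial

/-- The element `a + b x` of the ring `F_p[x]/(x^s - 1)`. -/
noncomputable def elt (p s : ℕ) (a b : ZMod p) : AdjoinRoot (X ^ s - 1 : (ZMod p)[X]) :=
  AdjoinRoot.of _ a + AdjoinRoot.of _ b * AdjoinRoot.root _

/-- The period: the least `k ≥ 1` with `(a + b x)^(k + l) = (a + b x)^l` for some `l ≥ 0`. -/
noncomputable def period (p s : ℕ) (a b : ZMod p) : ℕ :=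
  sInf {k : ℕ | 1 ≤ k ∧ ∃ l : ℕ, elt p s a b ^ (k + l) = elt p s a b ^ l}

/-- The largest period of an element `a + b x`, over all `a` and `b` in `F_p`. -/
noncomputable def maxPeriod (p s : ℕ) : ℕ := ⨆ c : ZMod p × ZMod p, period p s c.1 c.2

/-- The upper bound `p^v (p^m - 1)`, where `p^v` is the exact power of `p` dividing `s` and `m` is
the multiplicative order of `p` modulo `s / p^v` (this order is `1` for the modulus `1`). -/
noncomputable def ub (p s : ℕ) : ℕ :=
  p ^ padicValNat p s * (p ^ orderOf (p : ZMod (s / p ^ padicValNat p s)) - 1)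

end Pool.Agent.H474_CA
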