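import Mathlib
import Pool.Agent.H474_CA.Defs

set_option autoImplicit false

namespace Pool.Agent.H474_CA

open Polynomial Finset

variable {p : ℕ} [Fact p.Prime]

theorem pow_self_of_dvd {q : ℕ} (hq : 1 ≤ q) (h : (p - 1) ∣ (q - 1)) (a : ZMod p) : a ^ q = a := by
  by_cases ha : a = 0
  · rw [ha, zero_pow (by omega)]
  · obtain ⟨c, hc⟩ := h
    have h1 : a ^ (q - 1) = 1 := by
      rw [hc, pow_mul, ZMod.pow_card_sub_one_eq_one ha, one_pow]
    calc a ^ q = a ^ (q - 1 + 1) := by rw [Nat.sub_add_cancel hq]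
      _ = a := by rw [pow_succ, h1, one_mul]

theorem inner {K : Type*} [Field K] {q : ℕ} (hq : q.Prime) (hodd : Odd q) {w : K} (hw : w ^ q = 1)
    (hw1 : w ≠ 1) (c e : K) : ∏ v ∈ range q, (c + e * w ^ v) = c ^ q + e ^ q := by
  classical
  have : Fact q.Prime := ⟨hq⟩
  have ho : orderOf w = q := orderOf_eq_prime hw hw1
  have hp : IsPrimitiveRoot w q := by
    have := IsPrimitiveRoot.orderOf w
    rwa [ho] at this
  rw [IsPrimitiveRoot.pow_add_pow_eq_prod_add_mul c e hodd hp]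
  have h2 : nthRootsFinset q (1 : K) = (range q).image (fun v => w ^ v) := by
    ext z
    rw [mem_nthRootsFinset hq.pos, mem_image]
    constructor
    · intro hz
      obtain ⟨i, hi, rfl⟩ := hp.eq_pow_of_pow_eq_one hz
      exact ⟨i, by simpa using hi, rfl⟩
    · rintro ⟨i, -, rfl⟩
      rw [← pow_mul, mul_comm, pow_mul, hw, one_pow]
  rw [h2, prod_image]
  · refine prod_congr rfl fun v _ => ?_
    ring
  · intro i hi j hj hij
    simp only [coe_range, Set.mem_Iio] at hi hj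
    exact hp.pow_inj hi hj hij

theorem prodF {K : Type*} [Field K] {q : ℕ} (hq : q.Prime) (hodd : Odd q) (c e : K)
    (hc : c ^ q = c) (he : e ^ q = e) (hce : (c + e) ^ q = c + e) :
    ∀ (k : ℕ) (w : K), w ^ (q ^ k) = 1 → ∏ u ∈ range (q ^ k), (c + e * w ^ u) = c + e := by
  intro k
  induction k with
  | zero =>
    intro w hw
    simp
  | succ k ih =>
    intro w hw
    have hM : q ^ (k + 1) = q * q ^ k := by rw [pow_succ, mul_comm]
    have h1 : ∏ u ∈ range (q ^ (k + 1)), (c + e * w ^ u)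
        = ∏ u ∈ range (q ^ k), ∏ v ∈ range q, (c + (e * w ^ u) * (w ^ (q ^ k)) ^ v) := by
      rw [hM, Finset.prod_range, ← finProdFinEquiv.prod_comp, Fintype.prod_prod_type, Finset.prod_comm,
        Finset.prod_range]
      refine prod_congr rfl fun u _ => ?_
      rw [Finset.prod_range]
      refine prod_congr rfl fun v _ => ?_
      simp only [finProdFinEquiv_apply_val]
      rw [pow_add, pow_mul]
      ring
    rw [h1]
    by_cases h : w ^ (q ^ k) = 1
    · have h2 : ∀ u ∈ range (q ^ k), ∏ v ∈ range q, (c + (e * w ^ u) * (w ^ (q ^ k)) ^ v)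
          = (c + e * w ^ u) ^ q := by
        intro u _
        simp [h]
      rw [prod_congr rfl h2, prod_pow, ih w h, hce]
    · have hwq : (w ^ (q ^ k)) ^ q = 1 := by
        rw [← pow_mul, ← pow_succ, hw]
      have h2 : ∀ u ∈ range (q ^ k), ∏ v ∈ range q, (c + (e * w ^ u) * (w ^ (q ^ k)) ^ v)
          = (c + e * (w ^ q) ^ u) := by
        intro u _
        rw [inner hq hodd hwq h, hc, mul_pow, he]
        congr 2
        rw [← pow_mul, ← pow_mul, mul_comm]
      rw [prod_congr rfl h2]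
      refine ih (w ^ q) ?_
      rw [← pow_mul, ← hM, hw]

omit [Fact p.Prime] in
theorem inj_pow {s : ℕ} (ho : orderOf (p : ZMod s) = s.totient) :
    Set.InjOn (fun i => p ^ i % s) (range s.totient : Set ℕ) := by
  intro i hi j hj hij
  simp only [coe_range, Set.mem_Iio] at hi hj
  rw [← ho] at hi hj
  refine pow_injOn_Iio_orderOf (x := (p : ZMod s)) hi hj ?_
  have : p ^ i ≡ p ^ j [MOD s] := hij
  have h2 := (ZMod.natCast_eq_natCast_iff _ _ _).2 this
  simpa using h2

omit [Fact p.Prime] in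
theorem coprime_of_order {s : ℕ} (hs : 0 < s) (ho : orderOf (p : ZMod s) = s.totient) :
    p.Coprime s := by
  have : NeZero s := ⟨hs.ne'⟩
  have htot : 0 < s.totient := Nat.totient_pos.2 hs
  have hunit : IsUnit (p : ZMod s) := by
    refine IsUnit.of_pow_eq_one (n := orderOf (p : ZMod s)) (pow_orderOf_eq_one _) ?_
    rw [ho]
    exact htot.ne'
  exact (ZMod.isUnit_iff_coprime _ _).1 hunit

omit [Fact p.Prime] in
/-- the powers of a generator run through the residues prime to the modulus -/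
theorem image_pow {s : ℕ} (hs : 0 < s) (ho : orderOf (p : ZMod s) = s.totient) :
    (range s.totient).image (fun i => p ^ i % s) = (range s).filter (fun u => s.Coprime u) := by
  refine Finset.eq_of_subset_of_card_le ?_ ?_
  · intro u hu
    rw [mem_image] at hu
    obtain ⟨i, -, rfl⟩ := hu
    rw [mem_filter, mem_range]
    refine ⟨Nat.mod_lt _ hs, ?_⟩
    have h1 : (p ^ i).Coprime s := (coprime_of_order hs ho).pow_left i
    rw [Nat.Coprime] at h1 ⊢
    rw [Nat.gcd_comm, ← Nat.gcd_rec, Nat.gcd_comm]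
    exact h1
  · rw [← Nat.totient_eq_card_coprime, card_image_of_injOn (inj_pow ho), card_range]

omit [Fact p.Prime] in
theorem prodU {K : Type*} [Field K] {q k : ℕ} (hq : q.Prime)
    (ho : orderOf (p : ZMod (q ^ (k + 1))) = (q ^ (k + 1)).totient) (c e w : K)
    (hw : w ^ (q ^ (k + 1)) = 1) :
    (∏ i ∈ range (q ^ (k + 1)).totient, (c + e * w ^ (p ^ i))) *
      ∏ u ∈ range (q ^ k), (c + e * (w ^ q) ^ u) = ∏ u ∈ range (q ^ (k + 1)), (c + e * w ^ u) := by
  have hpos : 0 < q ^ (k + 1) := pow_pos hq.pos _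
  rw [← prod_filter_mul_prod_filter_not (range (q ^ (k + 1))) (fun u => (q ^ (k + 1)).Coprime u),
    ← image_pow hpos ho, prod_image (inj_pow ho)]
  congr 1
  · refine prod_congr rfl fun i _ => ?_
    rw [← pow_eq_pow_mod _ hw]
  · have h : (range (q ^ (k + 1))).filter (fun u => ¬ (q ^ (k + 1)).Coprime u)
        = (range (q ^ k)).image (fun u => q * u) := by
      ext u
      rw [mem_filter, mem_image, mem_range, Nat.coprime_pow_left_iff (by omega),
        hq.coprime_iff_not_dvd, not_not]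
      constructor
      · rintro ⟨h1, ⟨v, rfl⟩⟩
        refine ⟨v, ?_, rfl⟩
        rw [mem_range]
        rw [pow_succ, mul_comm] at h1
        exact Nat.lt_of_mul_lt_mul_right h1
      · rintro ⟨v, hv, rfl⟩
        rw [mem_range] at hv
        refine ⟨?_, Dvd.intro _ rfl⟩
        rw [pow_succ, mul_comm (q ^ k)]
        exact Nat.mul_lt_mul_of_pos_left hv hq.pos
    rw [h, prod_image]
    · refine prod_congr rfl fun u _ => ?_
      rw [← pow_mul]
    · intro i _ j _ hij
      exact Nat.eq_of_mul_eq_mul_left hq.pos hij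

/-- the norm of `a + b w` is `1` -/
theorem norm_one {K : Type*} [Field K] [Algebra (ZMod p) K] {q k : ℕ} (hq : q.Prime)
    (hodd : Odd q) (hd : (p - 1) ∣ (q - 1))
    (ho : orderOf (p : ZMod (q ^ (k + 1))) = (q ^ (k + 1)).totient) (a b : ZMod p)
    (hab : a + b ≠ 0) (w : K) (hw : w ^ (q ^ (k + 1)) = 1) :
    ∏ i ∈ range (q ^ (k + 1)).totient,
      (algebraMap (ZMod p) K a + algebraMap (ZMod p) K b * w ^ (p ^ i)) = 1 := by
  have hself : ∀ c : ZMod p, (algebraMap (ZMod p) K c) ^ q = algebraMap (ZMod p) K c := by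
    intro c
    rw [← map_pow, pow_self_of_dvd hq.one_le hd]
  have hne : algebraMap (ZMod p) K a + algebraMap (ZMod p) K b ≠ 0 := by
    rw [← map_add]
    intro h
    exact hab ((algebraMap (ZMod p) K).injective (by rw [h, map_zero]))
  have hsum : (algebraMap (ZMod p) K a + algebraMap (ZMod p) K b) ^ q
      = algebraMap (ZMod p) K a + algebraMap (ZMod p) K b := by
    rw [← map_add]
    exact hself _
  have h1 := prodU (K := K) hq ho (algebraMap (ZMod p) K a) (algebraMap (ZMod p) K b) w hw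
  have hwq : (w ^ q) ^ (q ^ k) = 1 := by
    rw [← pow_mul, mul_comm, ← pow_succ, hw]
  rw [prodF hq hodd _ _ (hself a) (hself b) hsum k (w ^ q) hwq,
    prodF hq hodd _ _ (hself a) (hself b) hsum (k + 1) w hw] at h1
  exact mul_right_cancel₀ hne (h1.trans (one_mul _).symm)

theorem frob_poly (a b : ZMod p) (i : ℕ) :
    (C a + C b * X : (ZMod p)[X]) ^ (p ^ i) = C a + C b * X ^ (p ^ i) := by
  rw [add_pow_char_pow, mul_pow, ← C_pow, ← C_pow, ZMod.pow_card_pow, ZMod.pow_card_pow]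

/-- a polynomial vanishing at all `s`-th roots of unity is divisible by `X ^ s - 1` -/
theorem dvd_of_roots {s : ℕ} (hs : ¬ p ∣ s) (f : (ZMod p)[X])
    (h : ∀ w : AlgebraicClosure (ZMod p), w ^ s = 1 → aeval w f = 0) :
    (X ^ s - 1 : (ZMod p)[X]) ∣ f := by
  have hs0 : 0 < s := Nat.pos_of_ne_zero (by rintro rfl; exact hs (dvd_zero p))
  have hne : NeZero ((s : ℕ) : AlgebraicClosure (ZMod p)) := by
    constructor
    intro h0
    exact hs ((CharP.cast_eq_zero_iff (AlgebraicClosure (ZMod p)) p s).1 h0)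
  obtain ⟨z, hz⟩ := HasEnoughRootsOfUnity.exists_primitiveRoot (AlgebraicClosure (ZMod p)) s
  rw [← map_dvd_map' (algebraMap (ZMod p) (AlgebraicClosure (ZMod p)))]
  have h1 : (X ^ s - 1 : (ZMod p)[X]).map (algebraMap (ZMod p) (AlgebraicClosure (ZMod p)))
      = X ^ s - 1 := by simp
  rw [h1, X_pow_sub_one_eq_prod hs0 hz]
  refine Finset.prod_dvd_of_coprime ?_ ?_
  · intro i _ j _ hij
    exact pairwise_coprime_X_sub_C (s := fun x : AlgebraicClosure (ZMod p) => x)
      Function.injective_id hij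
  · intro i hi
    rw [dvd_iff_isRoot, IsRoot.def, eval_map_algebraMap]
    exact h i ((mem_nthRootsFinset hs0 1).1 hi)

theorem elt_eq (s : ℕ) (a b : ZMod p) :
    elt p s a b = AdjoinRoot.mk (X ^ s - 1 : (ZMod p)[X]) (C a + C b * X) := by
  simp [elt, AdjoinRoot.mk_C, AdjoinRoot.mk_X]

theorem root_pow (s : ℕ) : (AdjoinRoot.root (X ^ s - 1 : (ZMod p)[X])) ^ s = 1 := by
  have h := AdjoinRoot.mk_self (f := (X ^ s - 1 : (ZMod p)[X]))
  rw [map_sub, map_pow, AdjoinRoot.mk_X, map_one] at h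
  exact sub_eq_zero.1 h

theorem elt_frob (s : ℕ) (a b : ZMod p) (i : ℕ) :
    elt p s a b ^ (p ^ i) = AdjoinRoot.of _ a + AdjoinRoot.of _ b *
      (AdjoinRoot.root (X ^ s - 1 : (ZMod p)[X])) ^ (p ^ i) := by
  rw [elt_eq, ← map_pow, frob_poly]
  simp [AdjoinRoot.mk_C, AdjoinRoot.mk_X]

theorem case_one {q k : ℕ} (hq : q.Prime)
    (hodd : Odd q) (hd : (p - 1) ∣ (q - 1))
    (ho : orderOf (p : ZMod (q ^ (k + 1))) = (q ^ (k + 1)).totient) (a b : ZMod p)
    (hab : a + b ≠ 0) :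
    elt p (q ^ (k + 1)) a b ^ (∑ i ∈ range (q ^ (k + 1)).totient, p ^ i) = 1 := by
  have hpos : 0 < q ^ (k + 1) := pow_pos hq.pos _
  have hcop := coprime_of_order hpos ho
  have hp : p.Prime := Fact.out
  have hnd : ¬ p ∣ q ^ (k + 1) := (Nat.Prime.coprime_iff_not_dvd hp).1 hcop
  have h1 : (X ^ (q ^ (k + 1)) - 1 : (ZMod p)[X]) ∣
      (C a + C b * X) ^ (∑ i ∈ range (q ^ (k + 1)).totient, p ^ i) - 1 := by
    refine dvd_of_roots hnd _ ?_
    intro w hw
    rw [map_sub, map_one, map_pow, ← prod_pow_eq_pow_sum, sub_eq_zero]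
    have h2 := norm_one (K := AlgebraicClosure (ZMod p)) hq hodd hd ho a b hab w hw
    rw [← h2]
    refine prod_congr rfl fun i _ => ?_
    rw [← map_pow, frob_poly]
    simp
  rw [elt_eq, ← map_pow]
  have h3 := (AdjoinRoot.mk_eq_zero (f := (X ^ (q ^ (k + 1)) - 1 : (ZMod p)[X]))).2 h1
  rw [map_sub, map_one] at h3
  exact sub_eq_zero.1 h3

theorem case_two {s j : ℕ} (hs : 0 < s) (hj : s ∣ p ^ j + 1) (a : ZMod p) (n : ℕ) :
    elt p s a (-a) ^ (1 + n * (p ^ j - 1)) =
      (-(AdjoinRoot.root (X ^ s - 1 : (ZMod p)[X])) ^ (s - 1)) ^ n * elt p s a (-a) := by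
  have hp : p.Prime := Fact.out
  have h1 : (AdjoinRoot.root (X ^ s - 1 : (ZMod p)[X])) ^ (p ^ j + 1) = 1 := by
    obtain ⟨c, hc⟩ := hj
    rw [hc, pow_mul, root_pow, one_pow]
  have h0 : (AdjoinRoot.root (X ^ s - 1 : (ZMod p)[X])) ^ (s - 1) *
      (AdjoinRoot.root (X ^ s - 1 : (ZMod p)[X])) = 1 := by
    rw [← pow_succ, Nat.sub_add_cancel hs, root_pow]
  have h2 : elt p s a (-a) ^ (p ^ j)
      = -(AdjoinRoot.root (X ^ s - 1 : (ZMod p)[X])) ^ (s - 1) * elt p s a (-a) := by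
    rw [elt_frob]
    unfold elt
    set x := AdjoinRoot.root (X ^ s - 1 : (ZMod p)[X]) with hx
    have h3 : x ^ (p ^ j) = x ^ (s - 1) := by
      calc x ^ (p ^ j) = x ^ (p ^ j) * (x ^ (s - 1) * x) := by rw [h0, mul_one]
        _ = x ^ (p ^ j + 1) * x ^ (s - 1) := by ring
        _ = x ^ (s - 1) := by rw [h1, one_mul]
    rw [h3, map_neg]
    calc AdjoinRoot.of (X ^ s - 1 : (ZMod p)[X]) a
          + -AdjoinRoot.of (X ^ s - 1 : (ZMod p)[X]) a * x ^ (s - 1)
        = AdjoinRoot.of (X ^ s - 1 : (ZMod p)[X]) a * (x ^ (s - 1) * x)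
          + -AdjoinRoot.of (X ^ s - 1 : (ZMod p)[X]) a * x ^ (s - 1) := by rw [h0, mul_one]
      _ = _ := by ring
  induction n with
  | zero => simp
  | succ n ih =>
    have hpj : 1 ≤ p ^ j := Nat.one_le_iff_ne_zero.2 (pow_ne_zero _ hp.ne_zero)
    have h4 : 1 + (n + 1) * (p ^ j - 1) = (n * (p ^ j - 1)) + p ^ j := by
      obtain ⟨t, ht⟩ := Nat.exists_eq_add_of_le hpj
      rw [ht]
      have : 1 + t - 1 = t := by omega
      rw [this]
      ring
    have h5 : 1 + n * (p ^ j - 1) = n * (p ^ j - 1) + 1 := by ring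
    rw [h5, pow_succ] at ih
    rw [h4, pow_add, h2, pow_succ]
    calc elt p s a (-a) ^ (n * (p ^ j - 1)) *
          (-(AdjoinRoot.root (X ^ s - 1 : (ZMod p)[X])) ^ (s - 1) * elt p s a (-a))
        = -(AdjoinRoot.root (X ^ s - 1 : (ZMod p)[X])) ^ (s - 1) *
          (elt p s a (-a) ^ (n * (p ^ j - 1)) * elt p s a (-a)) := by ring
      _ = _ := by rw [ih]; ring

theorem case_two' {s j : ℕ} (hs : 0 < s) (hj : s ∣ p ^ j + 1) (a : ZMod p) :
    elt p s a (-a) ^ (2 * s * (p ^ j - 1) + 1) = elt p s a (-a) ^ 1 := by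
  have h := case_two hs hj a (2 * s)
  have h1 : (-(AdjoinRoot.root (X ^ s - 1 : (ZMod p)[X])) ^ (s - 1)) ^ (2 * s) = 1 := by
    rw [Even.neg_pow (even_two_mul s), ← pow_mul, show (s - 1) * (2 * s) = s * ((s - 1) * 2) by ring,
      pow_mul, root_pow, one_pow]
  rw [h1, one_mul, add_comm] at h
  rw [h, pow_one]

omit [Fact p.Prime] in
theorem exists_neg {s : ℕ} (hs : 3 ≤ s) (ho : orderOf (p : ZMod s) = s.totient) :
    ∃ j, s ∣ p ^ j + 1 ∧ s.totient = 2 * j := by
  have hs0 : 0 < s := by omega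
  have h1 : s - 1 ∈ (range s).filter (fun u => s.Coprime u) := by
    rw [mem_filter, mem_range]
    refine ⟨by omega, ?_⟩
    have := Nat.coprime_self_sub_right (show 1 ≤ s by omega) (n := s)
    rw [this]
    exact Nat.coprime_one_right s
  rw [← image_pow hs0 ho, mem_image] at h1
  obtain ⟨i, hi, h2⟩ := h1
  rw [mem_range] at hi
  have hdvd : s ∣ p ^ i + 1 := by
    rw [Nat.dvd_iff_mod_eq_zero, Nat.add_mod, h2]
    rcases Nat.lt_or_ge 1 s with h3 | h3
    · rw [Nat.mod_eq_of_lt h3, Nat.sub_add_cancel hs0, Nat.mod_self]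
    · omega
  refine ⟨i, hdvd, ?_⟩
  have h3 : (p : ZMod s) ^ i = -1 := by
    have h4 := (ZMod.natCast_eq_zero_iff (p ^ i + 1) s).2 hdvd
    push_cast at h4
    exact eq_neg_of_add_eq_zero_left h4
  have h4 : (p : ZMod s) ^ (2 * i) = 1 := by
    rw [mul_comm, pow_mul, h3]
    ring
  have h5 := orderOf_dvd_of_pow_eq_one h4
  rw [ho] at h5
  obtain ⟨c, hc⟩ := h5
  have hi0 : i ≠ 0 := by
    rintro rfl
    rw [pow_zero, Nat.mod_eq_of_lt (by omega)] at h2
    omega
  have hc2 : c < 2 := by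
    by_contra h
    push Not at h
    nlinarith
  interval_cases c
  · omega
  · omega

theorem five_lt (j : ℕ) (hj : 3 ≤ j) : 5 * j < 3 ^ j + 1 := by
  induction j, hj using Nat.le_induction with
  | base => norm_num
  | succ n hn ih => rw [pow_succ]; omega

theorem period_lt {q k : ℕ} (hq : q.Prime) (hp3 : 3 ≤ p) (h7 : 7 ≤ q ^ (k + 1))
    (hd : (p - 1) ∣ (q - 1))
    (ho : orderOf (p : ZMod (q ^ (k + 1))) = (q ^ (k + 1)).totient) (a b : ZMod p) :
    period p (q ^ (k + 1)) a b < p ^ (q ^ (k + 1)).totient - 1 := by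
  have hp : p.Prime := Fact.out
  have hpos : 0 < q ^ (k + 1) := by omega
  have hcop := coprime_of_order hpos ho
  have hpq : p ≠ q := by
    rintro rfl
    have h1 : (p ^ (k + 1)).gcd p = 1 := by rw [Nat.gcd_comm]; exact hcop
    rw [pow_succ, Nat.gcd_mul_left_left] at h1
    omega
  have hq3 : 3 ≤ q := by
    have h1 := hq.two_le
    rcases Nat.lt_or_ge 2 q with h | h
    · exact h
    · have h2 : q = 2 := by omega
      rw [h2] at hd
      have := Nat.le_of_dvd (by norm_num) hd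
      omega
  have hodd : Odd q := hq.odd_of_ne_two (by omega)
  have hq5 : 5 ≤ q := by
    by_contra h
    push Not at h
    interval_cases q
    · have := Nat.le_of_dvd (by norm_num) hd
      omega
    · exact absurd hq (by norm_num)
  obtain ⟨j, hj, hm⟩ := exists_neg (by omega) ho
  have htot : (q ^ (k + 1)).totient = q ^ k * (q - 1) := Nat.totient_prime_pow_succ hq k
  have h45 : 2 * q ^ (k + 1) ≤ 5 * j := by
    have h1 : 4 * q ^ (k + 1) ≤ 5 * (q ^ (k + 1)).totient := by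
      rw [htot, pow_succ]
      have h2 : 4 * q ≤ 5 * (q - 1) := by omega
      calc 4 * (q ^ k * q) = q ^ k * (4 * q) := by ring
        _ ≤ q ^ k * (5 * (q - 1)) := Nat.mul_le_mul_left _ h2
        _ = 5 * (q ^ k * (q - 1)) := by ring
    omega
  have hj3 : 3 ≤ j := by omega
  have h3j : 3 ^ j ≤ p ^ j := Nat.pow_le_pow_left hp3 j
  have hlt : 2 * q ^ (k + 1) < p ^ j + 1 := by
    have := five_lt j hj3
    omega
  by_cases hab : a + b = 0
  · have hb : b = -a := by
      rw [add_comm] at hab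
      exact eq_neg_of_add_eq_zero_left hab
    have hmem : 2 * q ^ (k + 1) * (p ^ j - 1) ∈
        {n : ℕ | 1 ≤ n ∧ ∃ l : ℕ, elt p (q ^ (k + 1)) a b ^ (n + l)
          = elt p (q ^ (k + 1)) a b ^ l} := by
      refine ⟨?_, 1, ?_⟩
      · have h1 : 1 ≤ p ^ j - 1 := by omega
        exact Nat.one_le_iff_ne_zero.2 (Nat.mul_ne_zero (by omega) (by omega))
      · rw [hb]
        exact case_two' hpos hj a
    refine lt_of_le_of_lt (Nat.sInf_le hmem) ?_
    rw [hm]
    obtain ⟨t, ht⟩ : ∃ t, p ^ j = t + 1 := ⟨p ^ j - 1, by omega⟩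
    have h2 : p ^ (2 * j) = (t + 1) * (t + 1) := by rw [two_mul, pow_add, ht]
    rw [h2, ht]
    have h3 : (t + 1) * (t + 1) - 1 = (t + 2) * t := by
      have : (t + 1) * (t + 1) = (t + 2) * t + 1 := by ring
      rw [this, Nat.add_sub_cancel]
    rw [h3, Nat.add_sub_cancel]
    have h4 : 0 < t := by omega
    exact Nat.mul_lt_mul_of_pos_right (by omega) h4
  · have h1 := case_one hq hodd hd ho a b hab
    have hmem : (∑ i ∈ range (q ^ (k + 1)).totient, p ^ i) ∈
        {n : ℕ | 1 ≤ n ∧ ∃ l : ℕ, elt p (q ^ (k + 1)) a b ^ (n + l)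
          = elt p (q ^ (k + 1)) a b ^ l} := by
      refine ⟨?_, 0, ?_⟩
      · have h2 : p ^ 0 ≤ ∑ i ∈ range (q ^ (k + 1)).totient, p ^ i := by
          refine Finset.single_le_sum (f := fun i => p ^ i) (fun i _ => Nat.zero_le _) ?_
          rw [mem_range]
          omega
        simpa using h2
      · rw [add_zero, h1, pow_zero]
    refine lt_of_le_of_lt (Nat.sInf_le hmem) ?_
    have h2 := Nat.geomSum_eq hp.two_le (q ^ (k + 1)).totient
    rw [h2]
    refine Nat.div_lt_self ?_ (by omega)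
    have h3 : p ^ 1 ≤ p ^ (q ^ (k + 1)).totient := Nat.pow_le_pow_right hp.pos (by omega)
    rw [pow_one] at h3
    omega

theorem main {q k : ℕ} (hq : q.Prime) (hp3 : 3 ≤ p) (h7 : 7 ≤ q ^ (k + 1))
    (hd : (p - 1) ∣ (q - 1))
    (ho : orderOf (p : ZMod (q ^ (k + 1))) = (q ^ (k + 1)).totient) :
    maxPeriod p (q ^ (k + 1)) < ub p (q ^ (k + 1)) := by
  have hp : p.Prime := Fact.out
  have hpos : 0 < q ^ (k + 1) := by omega
  have hcop := coprime_of_order hpos ho
  have hnd : ¬ p ∣ q ^ (k + 1) := (Nat.Prime.coprime_iff_not_dvd hp).1 hcop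
  have h1 : ub p (q ^ (k + 1)) = p ^ (q ^ (k + 1)).totient - 1 := by
    unfold ub
    rw [padicValNat.eq_zero_of_not_dvd hnd, pow_zero, Nat.div_one, one_mul, ho]
  rw [h1]
  have : NeZero p := ⟨hp.ne_zero⟩
  have h2 : maxPeriod p (q ^ (k + 1)) ∈
      Set.range (fun c : ZMod p × ZMod p => period p (q ^ (k + 1)) c.1 c.2) :=
    Nat.sSup_mem (Set.range_nonempty _) (Set.finite_range _).bddAbove
  obtain ⟨c, hc⟩ := h2
  rw [← hc]
  exact period_lt hq hp3 h7 hd ho c.1 c.2

omit [Fact p.Prime] in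
/-- a primitive root modulo `q` which is not a Wieferich base generates modulo all powers -/
theorem lift {q : ℕ} (hq : q.Prime) (hodd : Odd q) (hp2 : 2 ≤ p)
    (ho : orderOf (p : ZMod q) = q - 1) (hw : ¬ q ^ 2 ∣ p ^ (q - 1) - 1) (k : ℕ) :
    orderOf (p : ZMod (q ^ (k + 1))) = (q ^ (k + 1)).totient := by
  have : Fact q.Prime := ⟨hq⟩
  have hq2 := hq.two_le
  have hone : (p : ZMod q) ^ (q - 1) = 1 := by
    rw [← ho]; exact pow_orderOf_eq_one _
  have hnq : ¬ q ∣ p := by
    intro h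
    rw [(ZMod.natCast_eq_zero_iff p q).2 h, zero_pow (by omega)] at hone
    exact zero_ne_one hone
  have hcop : p.Coprime q := ((Nat.Prime.coprime_iff_not_dvd hq).2 hnq).symm
  have hpow1 : ∀ n, 1 ≤ p ^ n := fun n => Nat.one_le_pow _ _ (by omega)
  have hx : q ∣ p ^ (q - 1) - 1 := by
    rw [← ZMod.natCast_eq_zero_iff, Nat.cast_sub (hpow1 _)]
    push_cast
    rw [hone, sub_self]
  have hlt : 1 < p ^ (q - 1) := Nat.one_lt_pow (by omega) (by omega)
  have hval : padicValNat q (p ^ (q - 1) - 1) = 1 := by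
    have h1 : 1 ≤ padicValNat q (p ^ (q - 1) - 1) :=
      one_le_padicValNat_of_dvd (by omega) hx
    have h2 : ¬ 2 ≤ padicValNat q (p ^ (q - 1) - 1) := by
      intro h
      exact hw ((padicValNat_dvd_iff_le (by omega)).2 h)
    omega
  have htot : (q ^ (k + 1)).totient = q ^ k * (q - 1) := Nat.totient_prime_pow_succ hq k
  refine Nat.dvd_antisymm ?_ ?_
  · refine orderOf_dvd_of_pow_eq_one ?_
    have h1 : p ^ (q ^ (k + 1)).totient ≡ 1 [MOD q ^ (k + 1)] :=
      Nat.ModEq.pow_totient (hcop.pow_right _)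
    have h2 := (ZMod.natCast_eq_natCast_iff _ _ _).2 h1
    simpa using h2
  · have hN : (p : ZMod (q ^ (k + 1))) ^ orderOf (p : ZMod (q ^ (k + 1))) = 1 :=
      pow_orderOf_eq_one _
    set N := orderOf (p : ZMod (q ^ (k + 1))) with hNdef
    have hN0 : N ≠ 0 := by
      have h1 : p ^ (q ^ (k + 1)).totient ≡ 1 [MOD q ^ (k + 1)] :=
        Nat.ModEq.pow_totient (hcop.pow_right _)
      have h2 := (ZMod.natCast_eq_natCast_iff _ _ _).2 h1
      have h3 : (p : ZMod (q ^ (k + 1))) ^ (q ^ (k + 1)).totient = 1 := by simpa using h2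
      have h4 : 0 < orderOf (p : ZMod (q ^ (k + 1))) := orderOf_pos_iff.2
        (isOfFinOrder_iff_pow_eq_one.2 ⟨_, Nat.totient_pos.2 (pow_pos hq.pos _), h3⟩)
      omega
    have hdvd : q ^ (k + 1) ∣ p ^ N - 1 := by
      rw [← ZMod.natCast_eq_zero_iff, Nat.cast_sub (hpow1 _)]
      push_cast
      rw [hN, sub_self]
    have hdq : q ∣ p ^ N - 1 := (dvd_pow_self q (by omega)).trans hdvd
    have hNq : (p : ZMod q) ^ N = 1 := by
      rw [← ZMod.natCast_eq_zero_iff, Nat.cast_sub (hpow1 _)] at hdq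
      push_cast at hdq
      exact sub_eq_zero.1 hdq
    have h5 := orderOf_dvd_of_pow_eq_one hNq
    rw [ho] at h5
    obtain ⟨n, hn⟩ := h5
    have hn0 : n ≠ 0 := by
      rintro rfl
      rw [mul_zero] at hn
      exact hN0 hn
    have hnx : ¬ q ∣ p ^ (q - 1) := fun h => hnq (hq.dvd_of_dvd_pow h)
    have h6 := padicValNat.pow_sub_pow (p := q) hodd hlt hx hnx hn0
    rw [one_pow, ← pow_mul, ← hn, hval] at h6
    have hne : p ^ N - 1 ≠ 0 := by
      have : 1 < p ^ N := Nat.one_lt_pow hN0 (by omega)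
      omega
    have h7 : k + 1 ≤ padicValNat q (p ^ N - 1) := (padicValNat_dvd_iff_le hne).1 hdvd
    have h8 : q ^ k ∣ n := (padicValNat_dvd_iff_le hn0).2 (by omega)
    rw [htot, hn, mul_comm]
    exact Nat.mul_dvd_mul_left _ h8

/-! ### The check for given primes -/

/-- no divisor between `2` and `n` -/
def noDiv (q : ℕ) : ℕ → Bool
  | 0 => true
  | (n + 1) => (decide (n < 2) || decide (q % n ≠ 0)) && noDiv q n

/-- none of `n` successive powers is `1` -/
def noOne (p q : ℕ) : ℕ → ℕ → Bool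
  | 0, _ => true
  | (n + 1), acc => decide (acc ≠ 1) && noOne p q n (acc * p % q)

omit [Fact p.Prime] in
theorem noDiv_spec (q : ℕ) : ∀ n, noDiv q n = true → ∀ m < n, 2 ≤ m → q % m ≠ 0 := by
  intro n
  induction n with
  | zero => intro _ m hm; omega
  | succ n ih =>
    intro h m hm h2
    rw [noDiv, Bool.and_eq_true, Bool.or_eq_true, decide_eq_true_eq, decide_eq_true_eq] at h
    rcases Nat.lt_or_ge m n with h3 | h3
    · exact ih h.2 m h3 h2
    · have : m = n := by omega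
      rw [this] at h2 ⊢
      rcases h.1 with h4 | h4
      · omega
      · exact h4

omit [Fact p.Prime] in
theorem noOne_spec (q : ℕ) : ∀ n i, noOne p q n (p ^ i % q) = true →
    ∀ t < n, p ^ (i + t) % q ≠ 1 := by
  intro n
  induction n with
  | zero => intro _ _ t ht; omega
  | succ n ih =>
    intro i h t ht
    rw [noOne, Bool.and_eq_true, decide_eq_true_eq] at h
    have h1 : p ^ i % q * p % q = p ^ (i + 1) % q := by
      rw [pow_succ, Nat.mod_mul_mod]
    rw [h1] at h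
    rcases Nat.eq_zero_or_pos t with h2 | h2
    · rw [h2]; exact h.1
    · have := ih (i + 1) h.2 (t - 1) (by omega)
      have h3 : i + 1 + (t - 1) = i + t := by omega
      rwa [h3] at this

/-- the whole check -/
def chk (p q : ℕ) : Bool :=
  decide (7 ≤ q) && decide ((q - 1) % (p - 1) = 0) && decide (p % q ≠ 0) && noDiv q q &&
    noOne p q (q - 2) (p % q) && decide ((p ^ (q - 1) - 1) % q ^ 2 ≠ 0)

theorem of_chk (hp3 : 3 ≤ p) (q : ℕ) (h : chk p q = true) (k : ℕ) :
    1 < q ∧ maxPeriod p (q ^ (k + 1)) < ub p (q ^ (k + 1)) := by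
  simp only [chk, Bool.and_eq_true, decide_eq_true_eq] at h
  obtain ⟨⟨⟨⟨⟨h7, hd⟩, hpq⟩, hdiv⟩, hone⟩, hwie⟩ := h
  refine ⟨by omega, ?_⟩
  have hq : q.Prime := by
    rw [Nat.prime_def_lt]
    refine ⟨by omega, ?_⟩
    intro m hm hmd
    by_contra h1
    have hm0 : m ≠ 0 := by
      rintro rfl
      have := Nat.eq_zero_of_zero_dvd hmd
      omega
    exact noDiv_spec q q hdiv m hm (by omega) (Nat.mod_eq_zero_of_dvd hmd)
  have : Fact q.Prime := ⟨hq⟩
  have hne : (p : ZMod q) ≠ 0 := by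
    intro h0
    rw [ZMod.natCast_eq_zero_iff] at h0
    exact hpq (Nat.mod_eq_zero_of_dvd h0)
  have h1 : (p : ZMod q) ^ (q - 1) = 1 := ZMod.pow_card_sub_one_eq_one hne
  have ho : orderOf (p : ZMod q) = q - 1 := by
    have hle : orderOf (p : ZMod q) ≤ q - 1 := orderOf_le_of_pow_eq_one (by omega) h1
    have hpos : 0 < orderOf (p : ZMod q) := orderOf_pos_iff.2 (isOfFinOrder_iff_pow_eq_one.2
      ⟨q - 1, by omega, h1⟩)
    by_contra hne2
    have h2 := noOne_spec (p := p) q (q - 2) 1 (by rw [pow_one]; exact hone)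
      (orderOf (p : ZMod q) - 1) (by omega)
    apply h2
    have h3 : 1 + (orderOf (p : ZMod q) - 1) = orderOf (p : ZMod q) := by omega
    rw [h3]
    have h4 := pow_orderOf_eq_one (p : ZMod q)
    have h5 : ((p ^ orderOf (p : ZMod q) : ℕ) : ZMod q) = ((1 : ℕ) : ZMod q) := by
      push_cast
      exact h4
    have h6 := (ZMod.natCast_eq_natCast_iff _ _ _).1 h5
    have h7' : p ^ orderOf (p : ZMod q) % q = 1 % q := h6
    rw [h7', Nat.mod_eq_of_lt (by omega)]
  have hodd : Odd q := hq.odd_of_ne_two (by omega)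
  have h8 : 7 ≤ q ^ (k + 1) := h7.trans (Nat.le_self_pow (by omega) q)
  exact main hq hp3 h8 (Nat.dvd_of_mod_eq_zero hd)
    (lift hq hodd (by omega) ho (fun h => hwie (Nat.mod_eq_zero_of_dvd h)) k)

end Pool.Agent.H474_CA
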